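import Mathlib

/-!
# Finite groups all of whose normal subgroups with quotient satisfying an identity map onto `G`

For every finite group `G` and every nontrivial word `w` there is a finite group `Γ` such that
every normal subgroup `N` of `Γ` for which `w` is an identity of `Γ / N` has `G` as a quotient.
-/

namespace Pool.Agent.Helper32IGP

section Words

variable {α : Type} {Q R : Type} [Group Q] [Group R]

/-- value of a letter -/
def ev (a : α → Q) (y : α × Bool) : Q := if y.2 then a y.1 else (a y.1)⁻¹

/-- value of the prefix of length `n` -/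
def pre (a : α → Q) (l : List (α × Bool)) (n : ℕ) : Q := ((l.take n).map (ev a)).prod

@[simp] theorem pre_zero (a : α → Q) (l : List (α × Bool)) : pre a l 0 = 1 := by simp [pre]

theorem pre_succ (a : α → Q) (l : List (α × Bool)) (n : ℕ) (hn : n < l.length) :
    pre a l (n + 1) = pre a l n * ev a l[n] := by
  unfold pre
  rw [List.take_add_one, List.getElem?_eq_getElem hn]
  simp only [Option.toList_some, List.map_append, List.map_cons, List.map_nil, List.prod_append,
    List.prod_cons, List.prod_nil, mul_one]

theorem ev_map (f : Q →* R) (a : α → Q) (y : α × Bool) : ev (fun x => f (a x)) y = f (ev a y) := by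
  unfold ev
  split_ifs <;> simp

theorem pre_map (f : Q →* R) (a : α → Q) (l : List (α × Bool)) (n : ℕ) :
    pre (fun x => f (a x)) l n = f (pre a l n) := by
  unfold pre
  rw [map_list_prod, List.map_map]
  congr 1
  apply List.map_congr_left
  intro y _
  exact ev_map f a y

/-- the values of the prefixes of length at most `n` are pairwise distinct -/
def SA (a : α → Q) (l : List (α × Bool)) (n : ℕ) : Prop :=
  ∀ i ≤ n, ∀ j ≤ n, pre a l i = pre a l j → i = j

end Words

section Wreath

variable (G Q : Type) [Group G] [Group Q]

/-- the regular wreath product -/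
abbrev Wr : Type := (Q → G) ⋊[mulAutArrow (A := Q) (M := G)] Q

variable {G Q}

theorem wr_left (a b : Wr G Q) (c : Q) : (a * b).left c = a.left c * b.left (a.right⁻¹ * c) := rfl

theorem wr_right (a b : Wr G Q) : (a * b).right = a.right * b.right := rfl

theorem wr_inv_left (a : Wr G Q) (c : Q) : (a⁻¹).left c = (a.left (a.right * c))⁻¹ := by
  have h : (a⁻¹ * a).left c = 1 := by simp
  rw [wr_left] at h
  have h2 : (a⁻¹).right⁻¹ = a.right := by simp
  rw [h2] at h
  exact eq_inv_of_mul_eq_one_left h

variable {α : Type} [DecidableEq α]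

open Classical in
/-- Self-avoiding prefixes: one more letter after passing to the wreath product. -/
theorem exists_wr_lift {l : List (α × Bool)} (hl : FreeGroup.IsReduced l) {n : ℕ}
    (hn : n < l.length) (a : α → Q) (ha : SA a l n) (g : G) :
    ∃ b : α → Wr G Q, (∀ x, (b x).right = a x) ∧ (∀ j ≤ n, (pre b l j).left 1 = 1) ∧
      ((pre b l (n + 1)).left 1 = g ∨ (pre b l (n + 1)).left 1 = g⁻¹) := by
  -- consecutive letters
  have hcons : ∀ j (h : j + 1 < l.length), (l[j]'(by omega)).1 = (l[j + 1]).1 →
      (l[j]'(by omega)).2 = (l[j + 1]).2 := by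
    intro j h
    exact (List.isChain_iff_getElem.1 hl) j h
  set x₀ := (l[n]).1 with hx₀
  set e₀ := (l[n]).2 with he₀
  -- the point
  set c₀ : Q := if e₀ then (pre a l n)⁻¹ else (pre a l n * (a x₀)⁻¹)⁻¹ with hc₀
  let b : α → Wr G Q := fun x => ⟨if x = x₀ then Pi.mulSingle c₀ g else 1, a x⟩
  have hbr : ∀ x, (b x).right = a x := fun x => rfl
  have hpr : ∀ j, (pre b l j).right = pre a l j := by
    intro j
    have := pre_map (SemidirectProduct.rightHom (φ := mulAutArrow (A := Q) (M := G))) b l j
    exact this.symm
  have hbl : ∀ x c, (x ≠ x₀ ∨ c ≠ c₀) → (b x).left c = 1 := by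
    intro x c h
    change (if x = x₀ then Pi.mulSingle c₀ g else (1 : Q → G)) c = 1
    split_ifs with hx
    · rw [Pi.mulSingle_apply, if_neg]
      rcases h with h | h
      · exact absurd hx h
      · exact h
    · rfl
  have hbl0 : (b x₀).left c₀ = g := by
    change (if x₀ = x₀ then Pi.mulSingle c₀ g else (1 : Q → G)) c₀ = g
    rw [if_pos rfl]; simp
  have part1 : ∀ j ≤ n, (pre b l j).left 1 = 1 := by
    intro j
    induction j with
    | zero => intro _; simp
    | succ j ih =>
      intro hj
      have hjl : j < l.length := by omega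
      rw [pre_succ b l j hjl, wr_left, ih (by omega), one_mul, hpr, mul_one]
      -- the contribution of the letter `l[j]`
      have hp : pre a l (j + 1) = pre a l j * ev a l[j] := pre_succ a l j hjl
      rcases hy : l[j] with ⟨x, e⟩
      rw [hy] at hp
      cases e with
      | true =>
        have he : ev b (x, true) = b x := by simp [ev]
        have hea : ev a (x, true) = a x := by simp [ev]
        rw [he]
        apply hbl
        by_contra hcon
        push Not at hcon
        obtain ⟨hx, hc⟩ := hcon
        rw [hea] at hp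
        cases he₀' : e₀ with
        | true =>
          rw [hc₀, he₀', if_pos rfl] at hc
          have := ha j (by omega) n le_rfl (inv_injective hc)
          omega
        | false =>
          rw [hc₀, he₀', if_neg (by simp)] at hc
          have hc' : pre a l j = pre a l n * (a x₀)⁻¹ := inv_injective hc
          have h1 : pre a l (j + 1) = pre a l n := by rw [hp, hc', hx]; group
          have h2 := ha (j + 1) (by omega) n le_rfl h1
          subst h2
          have h3 := hcons j hn (by rw [hy]; exact hx.trans hx₀)
          rw [hy, ← he₀, he₀'] at h3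
          simp at h3
      | false =>
        have he : ev b (x, false) = (b x)⁻¹ := by simp [ev]
        have hea : ev a (x, false) = (a x)⁻¹ := by simp [ev]
        rw [he, wr_inv_left, inv_eq_one, hbr]
        apply hbl
        by_contra hcon
        push Not at hcon
        obtain ⟨hx, hc⟩ := hcon
        rw [hea] at hp
        have hc2 : a x * (pre a l j)⁻¹ = (pre a l (j + 1))⁻¹ := by rw [hp]; group
        rw [hc2] at hc
        cases he₀' : e₀ with
        | true =>
          rw [hc₀, he₀', if_pos rfl] at hc
          have h2 := ha (j + 1) (by omega) n le_rfl (inv_injective hc)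
          subst h2
          have h3 := hcons j hn (by rw [hy]; exact hx.trans hx₀)
          rw [hy, ← he₀, he₀'] at h3
          simp at h3
        | false =>
          rw [hc₀, he₀', if_neg (by simp)] at hc
          have hc' : pre a l (j + 1) = pre a l n * (a x₀)⁻¹ := inv_injective hc
          have h1 : pre a l j = pre a l n := by
            rw [hp, hx] at hc'
            exact mul_right_cancel hc'
          have := ha j (by omega) n le_rfl h1
          omega
  refine ⟨b, hbr, part1, ?_⟩
  rw [pre_succ b l n hn, wr_left, part1 n le_rfl, one_mul, hpr, mul_one]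
  have hln : l[n] = (x₀, e₀) := rfl
  rw [hln]
  cases he₀' : e₀ with
  | true =>
    left
    have he : ev b (x₀, true) = b x₀ := by simp [ev]
    have h1 : (pre a l n)⁻¹ = c₀ := by rw [hc₀, he₀', if_pos rfl]
    rw [he, h1, hbl0]
  | false =>
    right
    have he : ev b (x₀, false) = (b x₀)⁻¹ := by simp [ev]
    have h1 : a x₀ * (pre a l n)⁻¹ = c₀ := by rw [hc₀, he₀', if_neg (by simp)]; group
    rw [he, wr_inv_left, hbr, h1, hbl0]

end Wreath

section Step

variable (G : Type) [Group G] {Y : Type} [Group Y]

/-- normal subgroups -/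
abbrev NSub (Y : Type) [Group Y] : Type := {M : Subgroup Y // M.Normal}

instance (M : NSub Y) : M.1.Normal := M.2

/-- the fibre product of `Y` with all the wreath products `G ≀ (Y / M)` -/
def Plus (Y : Type) [Group Y] : Subgroup (Y × ∀ M : NSub Y, Wr G (Y ⧸ M.1)) where
  carrier := {z | ∀ M, (z.2 M).right = (z.1 : Y ⧸ M.1)}
  mul_mem' := by
    intro a b ha hb M
    change (a.2 M * b.2 M).right = ((a.1 * b.1 : Y) : Y ⧸ M.1)
    rw [wr_right, ha M, hb M]
    rfl
  one_mem' := by intro M; rfl
  inv_mem' := by
    intro a ha M
    change ((a.2 M)⁻¹).right = ((a.1⁻¹ : Y) : Y ⧸ M.1)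
    rw [SemidirectProduct.inv_right, ha M]
    rfl

/-- first projection -/
def plusFst : Plus G Y →* Y := (MonoidHom.fst _ _).comp (Plus G Y).subtype

/-- wreath projection -/
def plusWr (M : NSub Y) : Plus G Y →* Wr G (Y ⧸ M.1) :=
  (Pi.evalMonoidHom _ M).comp ((MonoidHom.snd _ _).comp (Plus G Y).subtype)

theorem plusWr_right (M : NSub Y) (z : Plus G Y) :
    (plusWr G M z).right = ((plusFst G z : Y) : Y ⧸ M.1) := z.2 M

theorem plusFst_surj : Function.Surjective (plusFst G (Y := Y)) := by
  intro y
  exact ⟨⟨(y, fun M => ⟨1, (y : Y ⧸ M.1)⟩), fun M => rfl⟩, rfl⟩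

open Classical in
theorem plusWr_surj (M : NSub Y) : Function.Surjective (plusWr G M) := by
  intro z
  obtain ⟨y, hy⟩ := QuotientGroup.mk_surjective z.right
  refine ⟨⟨(y, fun M' => ⟨if h : M' = M then fun c => z.left (h ▸ c) else 1, (y : Y ⧸ M'.1)⟩),
    fun M => rfl⟩, ?_⟩
  change (⟨if h : M = M then fun c => z.left (h ▸ c) else 1, (y : Y ⧸ M.1)⟩ : Wr G (Y ⧸ M.1)) = z
  rw [dif_pos rfl]
  ext
  · rfl
  · exact hy

/-- `N` has `G` as a quotient -/
def Maps (N G : Type) [Group N] [Group G] : Prop := ∃ f : N →* G, Function.Surjective f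

theorem Maps.of_surj {N N' G : Type} [Group N] [Group N'] [Group G] (f : N →* N')
    (hf : Function.Surjective f) (h : Maps N' G) : Maps N G := by
  obtain ⟨g, hg⟩ := h
  exact ⟨g.comp f, hg.comp hf⟩

variable {α : Type} [DecidableEq α]

/-- the property of the group `Y` proved by induction on `n` -/
def PropN (l : List (α × Bool)) (n : ℕ) (G : Type) [Group G] (Y : Type) [Group Y] : Prop :=
  ∀ (N : Subgroup Y) [N.Normal], Maps N G ∨ ∃ a : α → Y ⧸ N, SA a l n

theorem propN_step {l : List (α × Bool)} (hl : FreeGroup.IsReduced l) {n : ℕ}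
    (hn : n < l.length) (h : PropN l n G Y) : PropN l (n + 1) G (Plus G Y) := by
  intro N hN
  -- the image of `N` in `Y`
  let N₁ : Subgroup Y := N.map (plusFst G)
  have hN₁ : N₁.Normal := hN.map _ (plusFst_surj G)
  rcases h N₁ with hm | ⟨a, ha⟩
  · left
    exact Maps.of_surj ((plusFst G).subgroupMap N) (MonoidHom.subgroupMap_surjective _ _) hm
  · let M : NSub Y := ⟨N₁, hN₁⟩
    -- the image of `N` in the wreath product
    let N₂ : Subgroup (Wr G (Y ⧸ M.1)) := N.map (plusWr G M)
    have hN₂ : N₂.Normal := hN.map _ (plusWr_surj G M)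
    have hN₂r : ∀ z ∈ N₂, z.right = 1 := by
      rintro z ⟨x, hx, rfl⟩
      rw [plusWr_right, QuotientGroup.eq_one_iff]
      exact ⟨x, hx, rfl⟩
    -- the coordinate at `1`
    let co : N₂ →* G :=
      { toFun := fun z => z.1.left 1
        map_one' := rfl
        map_mul' := by
          intro z z'
          change (z.1 * z'.1).left 1 = _
          rw [wr_left, hN₂r z.1 z.2, inv_one, one_mul] }
    by_cases hco : Function.Surjective co
    · left
      exact ⟨co.comp ((plusWr G M).subgroupMap N),
        hco.comp (MonoidHom.subgroupMap_surjective _ _)⟩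
    · right
      -- choose `g` outside the image
      have hex : ∃ g : G, g ∉ co.range := by
        by_contra hcon
        push Not at hcon
        exact hco (fun g => hcon g)
      obtain ⟨g, hg⟩ := hex
      obtain ⟨b, hb1, hb2, hb3⟩ := exists_wr_lift hl hn a ha g
      choose b' hb' using fun x => plusWr_surj G M (b x)
      refine ⟨fun x => (b' x : Plus G Y ⧸ N), ?_⟩
      -- comparison of prefixes
      have key : ∀ i ≤ n + 1, ∀ j ≤ n + 1,
          pre (fun x => (b' x : Plus G Y ⧸ N)) l i = pre (fun x => (b' x : Plus G Y ⧸ N)) l j →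
          (pre b l i) * (pre b l j)⁻¹ ∈ N₂ := by
        intro i _ j _ hij
        have h1 : ∀ m, pre (fun x => (b' x : Plus G Y ⧸ N)) l m = ((pre b' l m : Plus G Y) :
            Plus G Y ⧸ N) := fun m => pre_map (QuotientGroup.mk' N) b' l m
        rw [h1, h1, QuotientGroup.eq_iff_div_mem, div_eq_mul_inv] at hij
        have h2 : ∀ m, pre b l m = plusWr G M (pre b' l m) := by
          intro m
          rw [← pre_map]
          congr 1
          funext x
          exact (hb' x).symm
        rw [h2, h2, ← map_inv, ← map_mul]
        exact ⟨_, hij, rfl⟩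
      have hpr : ∀ j, (pre b l j).right = pre a l j := by
        intro j
        have := pre_map (SemidirectProduct.rightHom
          (φ := mulAutArrow (A := Y ⧸ M.1) (M := G))) b l j
        rw [show (pre b l j).right = SemidirectProduct.rightHom (pre b l j) from rfl, ← this]
        congr 1
        funext x
        exact hb1 x
      have hright : ∀ i ≤ n + 1, ∀ j ≤ n + 1,
          pre (fun x => (b' x : Plus G Y ⧸ N)) l i = pre (fun x => (b' x : Plus G Y ⧸ N)) l j →
          pre a l i = pre a l j := by
        intro i hi j hj hij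
        have h1 := hN₂r _ (key i hi j hj hij)
        rw [wr_right, SemidirectProduct.inv_right, hpr, hpr, mul_inv_eq_one] at h1
        exact h1
      -- the last prefix differs from the others
      have hlast : ∀ i ≤ n, pre (fun x => (b' x : Plus G Y ⧸ N)) l (n + 1) ≠
          pre (fun x => (b' x : Plus G Y ⧸ N)) l i := by
        intro i hi hij
        have h1 := key (n + 1) le_rfl i (by omega) hij
        have h2 := hright (n + 1) le_rfl i (by omega) hij
        have h3 : ((pre b l (n + 1)) * (pre b l i)⁻¹).left 1 ∈ co.range := ⟨⟨_, h1⟩, rfl⟩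
        rw [wr_left, wr_inv_left, hpr, hpr, h2, mul_one, mul_inv_cancel, hb2 i hi, inv_one,
          mul_one] at h3
        rcases hb3 with h4 | h4
        · rw [h4] at h3; exact hg h3
        · rw [h4] at h3; exact hg (by simpa using co.range.inv_mem h3)
      intro i hi j hj hij
      rcases Nat.lt_or_ge n i with hi' | hi'
      · have hi2 : i = n + 1 := by omega
        rcases Nat.lt_or_ge n j with hj' | hj'
        · omega
        · subst hi2
          exact absurd hij (hlast j hj')
      · rcases Nat.lt_or_ge n j with hj' | hj'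
        · have hj2 : j = n + 1 := by omega
          subst hj2
          exact absurd hij.symm (hlast i hi')
        · exact ha i hi' j hj' (hright i hi j hj hij)

instance [Finite G] [Finite Y] : Finite (Plus G Y) := by
  have : ∀ M : NSub Y, Finite (Wr G (Y ⧸ M.1)) := fun M =>
    Finite.of_equiv _ (SemidirectProduct.equivProd (φ := mulAutArrow (A := Y ⧸ M.1) (M := G))).symm
  infer_instance

theorem exists_propN (G : Type) [Group G] [Finite G] {l : List (α × Bool)}
    (hl : FreeGroup.IsReduced l) (n : ℕ) (hn : n ≤ l.length) :
    ∃ (Y : Type) (_ : Group Y) (_ : Finite Y), PropN l n G Y := by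
  induction n with
  | zero =>
    refine ⟨G, inferInstance, inferInstance, ?_⟩
    intro N _
    right
    refine ⟨fun _ => 1, ?_⟩
    intro i hi j hj _
    omega
  | succ n ih =>
    obtain ⟨Y, _, _, hY⟩ := ih (by omega)
    exact ⟨Plus G Y, inferInstance, inferInstance, propN_step G hl (by omega) hY⟩

/-- **Main group theoretic result.** -/
theorem exists_group_of_word (G : Type) [Group G] [Finite G] (w : FreeGroup α) (hw : w ≠ 1) :
    ∃ (Y : Type) (_ : Group Y) (_ : Finite Y), ∀ (N : Subgroup Y) [N.Normal],
      (∀ φ : FreeGroup α →* Y ⧸ N, φ w = 1) → Maps N G := by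
  have hl : FreeGroup.IsReduced w.toWord := FreeGroup.isReduced_toWord
  obtain ⟨Y, _, _, hY⟩ := exists_propN G hl w.toWord.length le_rfl
  refine ⟨Y, inferInstance, inferInstance, ?_⟩
  intro N _ hN
  rcases hY N with h | ⟨a, ha⟩
  · exact h
  · exfalso
    have h1 : pre a w.toWord w.toWord.length = FreeGroup.lift a w := by
      unfold pre
      rw [List.take_length]
      conv_rhs => rw [← FreeGroup.mk_toWord (x := w)]
      rw [FreeGroup.lift_mk]
      congr 1
      apply List.map_congr_left
      rintro ⟨x, e⟩ _
      cases e <;> simp [ev]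
    have h2 := hN (FreeGroup.lift a)
    rw [← h1] at h2
    have h3 := ha _ le_rfl 0 (Nat.zero_le _) (by rw [h2, pre_zero])
    rw [List.length_eq_zero_iff] at h3
    exact hw (FreeGroup.toWord_eq_nil_iff.1 h3)

end Step

end Pool.Agent.Helper32IGP
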