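import Pool.Prelude.Def_F_b1b78ff3
import Pool.Agent.Helper32_IGP.Law

/-!
# Base change for the inverse Galois problem
-/

namespace Pool.Agent.Helper32IGP

open Nfff32c05

section

variable {k K : Type} [Field k] [Field K] [Algebra k K] [IsGalois k K]

theorem base_change {α : Type} [DecidableEq α] (w : FreeGroup α) (hw : w ≠ 1)
    (hlaw : ∀ φ : FreeGroup α →* Gal(K/k), φ w = 1)
    (hk : ∀ (G : Type) [Group G] [Finite G], IsRealizable k G)
    (G : Type) [Group G] [Finite G] : IsRealizable K G := by
  obtain ⟨Y, _, _, hY⟩ := exists_group_of_word G w hw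
  obtain ⟨⟨L, hL, hLa, hLg, e⟩⟩ := (hk Y).exists_realization
  have hfinG : Finite (L ≃ₐ[k] L) := Finite.of_equiv Y e.toEquiv
  have hfd : FiniteDimensional k L := IsGaloisGroup.finiteDimensional (L ≃ₐ[k] L) k L
  -- the big field
  let Ω : Type := SeparableClosure K
  have : IsScalarTower k K Ω := inferInstance
  have : Algebra.IsSeparable K Ω := inferInstance
  have : Algebra.IsSeparable k Ω := Algebra.IsSeparable.trans k K Ω
  have : IsSepClosed Ω := inferInstance
  have : IsSepClosure k Ω := ⟨inferInstance, inferInstance⟩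
  have : IsGalois k Ω := inferInstance
  have : IsGalois K Ω := inferInstance
  let f : L →ₐ[k] Ω := IsSepClosed.lift
  let : Algebra L Ω := f.toRingHom.toAlgebra
  have : IsScalarTower k L Ω := IsScalarTower.of_algebraMap_eq (fun x => (f.commutes x).symm)
  let r₀ : Gal(Ω/k) →* Gal(L/k) := AlgEquiv.restrictNormalHom L
  have hr₀ : Function.Surjective r₀ := AlgEquiv.restrictNormalHom_surjective Ω
  let r : Gal(Ω/k) →* Y := e.symm.toMonoidHom.comp r₀
  have hr : Function.Surjective r := e.symm.surjective.comp hr₀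
  let rK : Gal(Ω/k) →* Gal(K/k) := AlgEquiv.restrictNormalHom K
  let N : Subgroup Y := rK.ker.map r
  have hN : N.Normal := Subgroup.Normal.map inferInstance r hr
  have hlawN : ∀ φ : FreeGroup α →* Y ⧸ N, φ w = 1 := by
    intro φ
    choose y hy using fun i : α => QuotientGroup.mk_surjective (φ (FreeGroup.of i))
    choose σ hσ using fun i : α => hr (y i)
    let ψ : FreeGroup α →* Gal(Ω/k) := FreeGroup.lift σ
    have h1 : φ = (QuotientGroup.mk' N).comp (r.comp ψ) := by
      ext i
      simp only [MonoidHom.comp_apply, ψ, FreeGroup.lift_apply_of, hσ]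
      exact (hy i).symm
    have h2 : ψ w ∈ rK.ker := hlaw (rK.comp ψ)
    rw [h1]
    change ((r (ψ w) : Y) : Y ⧸ N) = 1
    rw [QuotientGroup.eq_one_iff]
    exact ⟨_, h2, rfl⟩
  obtain ⟨f₁, hf₁⟩ := hY N hlawN
  -- the map on `Gal(Ω/K)`
  let ι : Gal(Ω/K) →* Gal(Ω/k) := AlgEquiv.restrictScalarsHom k
  have hι : ∀ τ, ι τ ∈ rK.ker := by
    intro τ
    rw [MonoidHom.mem_ker]
    ext x
    apply (algebraMap K Ω).injective
    have h1 : algebraMap K Ω (rK (ι τ) x) = (ι τ) (algebraMap K Ω x) :=
      AlgEquiv.restrictNormal_commutes (ι τ) K x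
    rw [h1]
    exact τ.commutes x
  let h₀ : Gal(Ω/K) →* N :=
    { toFun := fun τ => ⟨r (ι τ), ⟨_, hι τ, rfl⟩⟩
      map_one' := by ext; simp
      map_mul' := by intro a b; ext; simp }
  have hh₀ : Function.Surjective h₀ := by
    rintro ⟨n, σ, hσ, rfl⟩
    have hσ' : ∀ x : K, σ (algebraMap K Ω x) = algebraMap K Ω x := by
      intro x
      have h1 : algebraMap K Ω (rK σ x) = σ (algebraMap K Ω x) :=
        AlgEquiv.restrictNormal_commutes σ K x
      have h2 : rK σ = 1 := hσ
      rw [← h1, h2]
      rfl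
    let τ : Gal(Ω/K) := AlgEquiv.ofRingEquiv (f := σ.toRingEquiv) hσ'
    refine ⟨τ, ?_⟩
    apply Subtype.ext
    change r (ι τ) = r σ
    congr 1
  let h : Gal(Ω/K) →* G := f₁.comp h₀
  have hh : Function.Surjective h := hf₁.comp hh₀
  -- the kernel is closed
  have hclosed : IsClosed (h.ker : Set Gal(Ω/K)) := by
    let b := Module.finBasis k L
    let M : IntermediateField K Ω := IntermediateField.adjoin K (Set.range (fun i => f (b i)))
    have hM : FiniteDimensional K M := by
      apply IntermediateField.finiteDimensional_adjoin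
      intro x _
      exact Algebra.IsIntegral.isIntegral x
    have hfM : ∀ x : L, f x ∈ M := by
      intro x
      rw [← b.sum_repr x, map_sum]
      apply sum_mem
      intro i _
      rw [map_smul, Algebra.smul_def]
      apply mul_mem
      · rw [IsScalarTower.algebraMap_apply k K Ω]
        exact M.algebraMap_mem _
      · exact IntermediateField.subset_adjoin K _ ⟨i, rfl⟩
    have h1 : M.fixingSubgroup ≤ h.ker := by
      intro τ hτ
      rw [MonoidHom.mem_ker]
      have h2 : r₀ (ι τ) = 1 := by
        ext x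
        apply (algebraMap L Ω).injective
        have h3 : algebraMap L Ω (r₀ (ι τ) x) = (ι τ) (algebraMap L Ω x) :=
          AlgEquiv.restrictNormal_commutes (ι τ) L x
        rw [h3]
        have h4 : algebraMap L Ω x ∈ M := hfM x
        exact hτ ⟨_, h4⟩
      have h5 : h₀ τ = 1 := by
        apply Subtype.ext
        change e.symm (r₀ (ι τ)) = 1
        rw [h2, map_one]
      change f₁ (h₀ τ) = 1
      rw [h5, map_one]
    have h6 : IsOpen (h.ker : Set Gal(Ω/K)) :=
      Subgroup.isOpen_mono h1 M.fixingSubgroup_isOpen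
    exact Subgroup.isClosed_of_isOpen _ h6
  let H : ClosedSubgroup Gal(Ω/K) := ⟨h.ker, hclosed⟩
  have : H.1.Normal := inferInstanceAs h.ker.Normal
  let E : IntermediateField K Ω := IntermediateField.fixedField H.1
  have hE : IsGalois K E := by
    rw [← InfiniteGalois.normal_iff_isGalois]
    rw [InfiniteGalois.fixingSubgroup_fixedField H]
    exact this
  have e1 : G ≃* (E ≃ₐ[K] E) :=
    (QuotientGroup.quotientKerEquivOfSurjective h hh).symm.trans
      (InfiniteGalois.normalAutEquivQuotient H)
  exact ⟨⟨⟨E, inferInstance, inferInstance, hE, e1⟩⟩⟩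

end

end Pool.Agent.Helper32IGP
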