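import Pool.Prelude.Def_F_b1b78ff3
import Pool.Agent.Helper32_IGP.BaseChange

/-!
# MP_dadaab_nt: base change for the inverse Galois problem

If every finite group is realizable over a field `k` (for instance `k = ℚ`), then every finite
group is realizable over every (possibly infinite) Galois extension `K` of `k` whose Galois group
satisfies a nontrivial group identity.  Examples: the maximal abelian extension of `k`, Galois
extensions with solvable Galois group, the compositum of all extensions of degree at most `d`.
-/

namespace Pool.Agent.Results.MP_dadaab_nt.BaseChangeIdentity

open Nfff32c05

/-- Every finite group is realizable over the field `k` if and only if every finite group is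
realizable over every Galois extension `K / k`, finite or infinite, whose Galois group satisfies a
group identity `w = 1` for some nontrivial word `w`. -/
theorem result (k : Type) [Field k] :
    (∀ (G : Type) [Group G] [Finite G], IsRealizable k G) ↔
      ∀ (K : Type) [Field K] [Algebra k K] [IsGalois k K],
        (∃ w : FreeGroup ℕ, w ≠ 1 ∧ ∀ φ : FreeGroup ℕ →* (K ≃ₐ[k] K), φ w = 1) →
          ∀ (G : Type) [Group G] [Finite G], IsRealizable K G := by
  constructor
  · intro h K _ _ _ hw G _ _
    obtain ⟨w, hw1, hw2⟩ := hw
    exact Pool.Agent.Helper32IGP.base_change w hw1 hw2 h G
  · intro h G _ _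
    apply h k
    refine ⟨FreeGroup.of 0, FreeGroup.of_ne_one 0, ?_⟩
    intro φ
    exact Subsingleton.elim _ _

end Pool.Agent.Results.MP_dadaab_nt.BaseChangeIdentity
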