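import Mathlib

/-!
# Group covers killing all tame pairs

For a finite group `G` and finitely many integers `q ≥ 2` there is a finite group `E` with a
surjection `π : E → G` such that, whenever `σ τ σ⁻¹ = τ ^ q` in `E` for one of these `q` and `τ` has
order a power of a prime `ℓ ∤ q`, then `π τ = 1`.
-/

namespace Pool.Agent.Helper32IGP

open scoped Pointwise

section Wreath

variable {G : Type} [Group G] (g : G) (N : ℕ)

/-- the cyclic group `ℤ/N` written multiplicatively -/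
abbrev Cyc (N : ℕ) : Type := Multiplicative (ZMod N)

/-- cosets -/
abbrev Cos : Type := G ⧸ Subgroup.zpowers g

/-- coset representative -/
noncomputable def rep (x : Cos g) : G := Quotient.out x

theorem rep_spec (x : Cos g) : ((rep g x : G) : Cos g) = x := Quotient.out_eq' x

/-- the cocycle -/
noncomputable def kap (h : G) (x : Cos g) : G := (rep g x)⁻¹ * h * rep g (h⁻¹ • x)

theorem kap_mem (h : G) (x : Cos g) : kap g h x ∈ Subgroup.zpowers g := by
  unfold kap
  rw [mul_assoc, ← QuotientGroup.eq, rep_spec]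
  have h1 : ((h * rep g (h⁻¹ • x) : G) : Cos g) = h • ((rep g (h⁻¹ • x) : G) : Cos g) := rfl
  rw [h1, rep_spec, smul_inv_smul]

theorem kap_mul (h h' : G) (x : Cos g) :
    kap g (h * h') x = kap g h x * kap g h' (h⁻¹ • x) := by
  unfold kap
  rw [smul_smul, ← mul_inv_rev]
  group

/-- the big group -/
abbrev Big : Type := (Cos g → Cyc N) ⋊[mulAutArrow (A := Cos g) (M := Cyc N)] G

theorem big_mul_left (a b : Big g N) (x : Cos g) :
    (a * b).left x = a.left x * b.left (a.right⁻¹ • x) := rfl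

theorem big_mul_right (a b : Big g N) : (a * b).right = a.right * b.right := rfl

variable {g N}

/-- the cover of `G` attached to a homomorphism `ψ : ℤ/N → G` -/
def Cov (ψ : Cyc N →* G) : Subgroup (Big g N) where
  carrier := {a | ∀ x, ψ (a.left x) = kap g a.right x}
  mul_mem' := by
    intro a b ha hb x
    rw [big_mul_left, big_mul_right, map_mul, ha, hb, kap_mul]
  one_mem' := by
    intro x
    simp [kap]
  inv_mem' := by
    intro a ha x
    have h1 : (a * a⁻¹).left (a.right • x) = 1 := by simp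
    rw [big_mul_left, inv_smul_smul] at h1
    have h2 : a⁻¹.left x = (a.left (a.right • x))⁻¹ := (inv_eq_of_mul_eq_one_right h1).symm
    rw [h2, map_inv, ha]
    have h3 := kap_mul g a.right a⁻¹.right (a.right • x)
    rw [inv_smul_smul] at h3
    have h4 : a.right * a⁻¹.right = 1 := by simp
    rw [h4] at h3
    have h5 : kap g (1 : G) (a.right • x) = 1 := by simp [kap]
    rw [h5] at h3
    exact (inv_eq_of_mul_eq_one_right h3.symm)

/-- the projection to `G` -/
def covProj (ψ : Cyc N →* G) : Cov (g := g) ψ →* G :=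
  (SemidirectProduct.rightHom).comp (Cov ψ).subtype

theorem covProj_surj (ψ : Cyc N →* G) (hψ : ∀ c ∈ Subgroup.zpowers g, ∃ b, ψ b = c) :
    Function.Surjective (covProj (g := g) ψ) := by
  intro h
  choose f hf using fun x => hψ _ (kap_mem g h x)
  exact ⟨⟨⟨f, h⟩, hf⟩, rfl⟩

theorem pow_left_of_fixed (a : Big g N) (x : Cos g) (hx : a.right • x = x) (n : ℕ) :
    (a ^ n).left x = (a.left x) ^ n ∧ (a ^ n).right • x = x := by
  induction n with
  | zero => simp
  | succ n ih =>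
    have hx' : a.right⁻¹ • x = x := by rw [inv_smul_eq_iff, hx]
    constructor
    · rw [pow_succ', big_mul_left, hx', ih.1, pow_succ']
    · rw [pow_succ', big_mul_right, mul_smul, ih.2, hx]

/-- the key computation -/
theorem key_step (s t : Big g N) (q : ℕ) (h : s * t * s⁻¹ = t ^ q) (x : Cos g)
    (hx : t.right • x = x) :
    t.right • (s.right⁻¹ • x) = s.right⁻¹ • x ∧ t.left (s.right⁻¹ • x) = (t.left x) ^ q := by
  have h1 : s * t = t ^ q * s := by rw [← h]; group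
  have hr : s.right * t.right = (t ^ q).right * s.right := congrArg SemidirectProduct.right h1
  obtain ⟨hp1, hp2⟩ := pow_left_of_fixed t x hx q
  constructor
  · have : t.right * s.right⁻¹ = s.right⁻¹ * (t ^ q).right := by
      rw [eq_inv_mul_iff_mul_eq, ← mul_assoc, hr, mul_inv_cancel_right]
    rw [smul_smul, this, mul_smul, hp2]
  · have hl : (s * t).left x = (t ^ q * s).left x := by rw [h1]
    rw [big_mul_left, big_mul_left, hp1] at hl
    have h3 : (t ^ q).right⁻¹ • x = x := by rw [inv_smul_eq_iff, hp2]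
    rw [h3, mul_comm] at hl
    exact mul_right_cancel hl

theorem key_iter (s t : Big g N) (q : ℕ) (h : s * t * s⁻¹ = t ^ q) (x : Cos g)
    (hx : t.right • x = x) (n : ℕ) :
    t.right • ((s.right⁻¹) ^ n • x) = (s.right⁻¹) ^ n • x ∧
      t.left ((s.right⁻¹) ^ n • x) = (t.left x) ^ (q ^ n) := by
  induction n with
  | zero => simp [hx]
  | succ n ih =>
    obtain ⟨h1, h2⟩ := key_step s t q h _ ih.1
    rw [pow_succ', mul_smul]
    refine ⟨h1, ?_⟩
    rw [h2, ih.2, ← pow_mul, pow_succ]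

/-- no tame pair lifts `g` -/
theorem kill [Finite G] (ψ : Cyc N →* G)
    (hψ : ∀ k : ℕ, ψ (Multiplicative.ofAdd (k : ZMod N)) = g ^ k)
    {ℓ : ℕ} (hℓ : ℓ.Prime) (K : ℕ) (hN : N = ℓ ^ (K + 1))
    (hg : g ^ ℓ = 1) (hg1 : g ≠ 1) (q : ℕ) (hq : 2 ≤ q)
    (hK : q ^ (Nat.card G) < ℓ ^ (K + 1))
    (s t : Cov (g := g) ψ) (h : s * t * s⁻¹ = t ^ q) (ht : covProj ψ t = g) : False := by
  obtain ⟨s, hs⟩ := s
  obtain ⟨t, htt⟩ := t
  have h' : s * t * s⁻¹ = t ^ q := congrArg Subtype.val h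
  have htr : t.right = g := ht
  set x₀ : Cos g := ((1 : G) : Cos g)
  have hx₀ : t.right • x₀ = x₀ := by
    rw [htr]
    change (((g * 1 : G)) : Cos g) = ((1 : G) : Cos g)
    rw [mul_one]
    rw [QuotientGroup.eq, mul_one]
    exact inv_mem (Subgroup.mem_zpowers g)
  have hm := key_iter s t q h' x₀ hx₀ (orderOf (s.right⁻¹))
  rw [pow_orderOf_eq_one, one_smul] at hm
  set b := t.left x₀
  have hb : b = b ^ (q ^ orderOf (s.right⁻¹)) := hm.2
  -- ψ b ≠ 1
  have hψb : ψ b = kap g g x₀ := by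
    have := htt x₀
    rw [htr] at this
    exact this
  have hψb1 : ψ b ≠ 1 := by
    rw [hψb]
    unfold kap
    have h0 : g⁻¹ • x₀ = x₀ := by
      rw [inv_smul_eq_iff]
      conv_lhs => rw [← hx₀]
      exact congrArg (fun u : G => u • x₀) htr
    rw [h0]
    intro h1
    apply hg1
    have h2 : rep g x₀ ∈ Subgroup.zpowers g := by
      have := rep_spec g x₀
      rw [QuotientGroup.eq] at this
      have h3 := inv_mem this
      simpa using h3
    have h3 : g * rep g x₀ = rep g x₀ := by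
      have : (rep g x₀) * ((rep g x₀)⁻¹ * g * rep g x₀) = rep g x₀ * 1 := by rw [h1]
      simpa [mul_assoc] using this
    simpa using h3
  -- the order of `b`
  set m := orderOf (s.right⁻¹)
  have hm1 : 1 ≤ m := orderOf_pos _
  have hmle : m ≤ Nat.card G := Nat.le_of_dvd Nat.card_pos (orderOf_dvd_natCard _)
  have hqm : 2 ≤ q ^ m := hq.trans (Nat.le_self_pow (by omega) q)
  have hb1 : b ^ (q ^ m - 1) = 1 := by
    have : b ^ (q ^ m - 1) * b = 1 * b := by
      rw [← pow_succ, Nat.sub_add_cancel (by omega), ← hb, one_mul]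
    exact mul_right_cancel this
  have hord : orderOf b ∣ q ^ m - 1 := orderOf_dvd_of_pow_eq_one hb1
  have hbN : b ^ (ℓ ^ (K + 1)) = 1 := by
    rw [← hN]
    have : (N : ℕ) • (Multiplicative.toAdd b) = 0 := by simp
    exact this
  have hord2 : orderOf b = ℓ ^ (K + 1) := by
    obtain ⟨j, hj, hj2⟩ := (Nat.dvd_prime_pow hℓ).1 (orderOf_dvd_of_pow_eq_one hbN)
    by_cases hjK : j = K + 1
    · rw [hj2, hjK]
    · exfalso
      -- then `b ^ (ℓ ^ K) = 1`, so `b` is an `ℓ`-th power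
      have hbK : b ^ (ℓ ^ K) = 1 := by
        rw [← orderOf_dvd_iff_pow_eq_one, hj2]
        exact pow_dvd_pow _ (by omega)
      apply hψb1
      have h1 : ((ℓ ^ K : ℕ) : ZMod N) * (Multiplicative.toAdd b) = 0 := by
        have : (ℓ ^ K) • (Multiplicative.toAdd b) = 0 := hbK
        rwa [nsmul_eq_mul] at this
      have hNpos : 0 < N := by rw [hN]; exact pow_pos hℓ.pos _
      haveI : NeZero N := ⟨hNpos.ne'⟩
      have h2 : ((ℓ ^ K * (ZMod.val (Multiplicative.toAdd b)) : ℕ) : ZMod N) = 0 := by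
        rw [Nat.cast_mul, ZMod.natCast_zmod_val]; exact h1
      rw [ZMod.natCast_eq_zero_iff] at h2
      have h2' : ℓ ^ K * ℓ ∣ ℓ ^ K * ZMod.val (Multiplicative.toAdd b) := by
        have h22 : ℓ ^ K * ℓ = N := by rw [hN, pow_succ]
        rw [h22]; exact h2
      have h3 : ℓ ∣ ZMod.val (Multiplicative.toAdd b) :=
        Nat.dvd_of_mul_dvd_mul_left (pow_pos hℓ.pos K) h2'
      obtain ⟨c, hc⟩ := h3
      have h4 : b = (Multiplicative.ofAdd ((c : ℕ) : ZMod N)) ^ ℓ := by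
        have : (Multiplicative.toAdd b) = ℓ • ((c : ℕ) : ZMod N) := by
          rw [nsmul_eq_mul, ← Nat.cast_mul, ← hc, ZMod.natCast_zmod_val]
        exact this
      rw [h4, map_pow]
      rw [hψ, ← pow_mul, mul_comm, pow_mul, hg, one_pow]
  rw [hord2] at hord
  have := Nat.le_of_dvd (by omega) hord
  have h6 : q ^ m ≤ q ^ (Nat.card G) := Nat.pow_le_pow_right (by omega) hmle
  omega

/-- the homomorphism `ℤ/N → G` sending `1` to `g` -/
theorem exists_psi (g : G) (N : ℕ) (hg : g ^ N = 1) :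
    ∃ ψ : Cyc N →* G, ∀ k : ℕ, ψ (Multiplicative.ofAdd (k : ZMod N)) = g ^ k := by
  let f : ℤ →+ Additive G := zmultiplesHom (Additive G) (Additive.ofMul g)
  have hf : f N = 0 := by
    change (zmultiplesHom (Additive G) (Additive.ofMul g)) (N : ℤ) = 0
    rw [zmultiplesHom_apply]
    simpa using congrArg Additive.ofMul hg
  let F : ZMod N →+ Additive G := ZMod.lift N ⟨f, hf⟩
  refine ⟨AddMonoidHom.toMultiplicativeLeft F, ?_⟩
  intro k
  change Additive.toMul (F (k : ZMod N)) = g ^ k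
  have h1 : F (k : ZMod N) = f k := by
    have := ZMod.lift_coe N ⟨f, hf⟩ (k : ℤ)
    simpa using this
  rw [h1]
  change Additive.toMul ((zmultiplesHom (Additive G) (Additive.ofMul g)) (k : ℤ)) = g ^ k
  rw [zmultiplesHom_apply]
  simp

end Wreath

/-- a cover killing the tame pairs `(σ, τ)` with exponent `q` and `τ ↦ g` -/
theorem exists_cover_one (G : Type) [Group G] [Finite G] (q : ℕ) (hq : 2 ≤ q) (g : G) :
    ∃ (E : Type) (_ : Group E) (_ : Finite E) (π : E →* G), Function.Surjective π ∧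
      ∀ σ τ : E, σ * τ * σ⁻¹ = τ ^ q → ∀ ℓ : ℕ, ℓ.Prime → ¬ ℓ ∣ q → g ^ ℓ = 1 → g ≠ 1 →
        π τ ≠ g := by
  by_cases h : ∃ ℓ : ℕ, ℓ.Prime ∧ g ^ ℓ = 1 ∧ g ≠ 1
  · obtain ⟨ℓ, hℓ, hgℓ, hg1⟩ := h
    have hord : orderOf g = ℓ := by
      rcases (Nat.dvd_prime hℓ).1 (orderOf_dvd_of_pow_eq_one hgℓ) with h | h
      · exact absurd (orderOf_eq_one_iff.1 h) hg1
      · exact h
    obtain ⟨K, hK⟩ : ∃ K : ℕ, q ^ (Nat.card G) < ℓ ^ (K + 1) := by
      refine ⟨q ^ (Nat.card G), ?_⟩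
      calc q ^ (Nat.card G) < 2 ^ (q ^ (Nat.card G)) := Nat.lt_two_pow_self
        _ ≤ ℓ ^ (q ^ (Nat.card G)) := Nat.pow_le_pow_left hℓ.two_le _
        _ ≤ ℓ ^ (q ^ (Nat.card G) + 1) := Nat.pow_le_pow_right hℓ.pos (Nat.le_succ _)
    have hgN : g ^ (ℓ ^ (K + 1)) = 1 := by
      rw [pow_succ', pow_mul, hgℓ, one_pow]
    obtain ⟨ψ, hψ⟩ := exists_psi g (ℓ ^ (K + 1)) hgN
    haveI : NeZero (ℓ ^ (K + 1)) := ⟨(pow_pos hℓ.pos _).ne'⟩
    haveI : Finite (Cyc (ℓ ^ (K + 1))) := inferInstanceAs (Finite (ZMod (ℓ ^ (K + 1))))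
    haveI : Finite (Big g (ℓ ^ (K + 1))) := by
      have e : Big g (ℓ ^ (K + 1)) ≃ (Cos g → Cyc (ℓ ^ (K + 1))) × G := SemidirectProduct.equivProd
      exact Finite.of_equiv _ e.symm
    refine ⟨Cov (g := g) ψ, inferInstance, inferInstance, covProj ψ, ?_, ?_⟩
    · apply covProj_surj
      intro c hc
      obtain ⟨k, hk⟩ := (mem_powers_iff_mem_zpowers.2 hc)
      exact ⟨_, (hψ k).trans hk⟩
    · intro σ τ h1 ℓ' hℓ' hq' _ _ hτ
      exact kill ψ hψ hℓ K rfl hgℓ hg1 q hq hK σ τ h1 hτ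
  · refine ⟨G, inferInstance, inferInstance, MonoidHom.id G, Function.surjective_id, ?_⟩
    intro σ τ _ ℓ hℓ _ hg hg1
    exact absurd ⟨ℓ, hℓ, hg, hg1⟩ h

/-- **Covering lemma.** -/
theorem exists_cover (G : Type) [Group G] [Finite G] (Q : Finset ℕ) (hQ : ∀ q ∈ Q, 2 ≤ q) :
    ∃ (E : Type) (_ : Group E) (_ : Finite E) (π : E →* G), Function.Surjective π ∧
      ∀ q ∈ Q, ∀ σ τ : E, σ * τ * σ⁻¹ = τ ^ q → ∀ ℓ : ℕ, ℓ.Prime → ¬ ℓ ∣ q →
        (∃ k, τ ^ (ℓ ^ k) = 1) → π τ = 1 := by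
  choose E hE1 hE2 π hπ hkill using
    fun (i : Q × G) => exists_cover_one G i.1.1 (hQ _ i.1.2) i.2
  let T : Subgroup (G × ∀ i, E i) :=
    { carrier := {a | ∀ i, π i (a.2 i) = a.1}
      mul_mem' := by
        intro a b ha hb i
        simp [ha i, hb i]
      one_mem' := by intro i; simp
      inv_mem' := by
        intro a ha i
        simp [ha i] }
  refine ⟨T, inferInstance, inferInstance, (MonoidHom.fst G _).comp T.subtype, ?_, ?_⟩
  · intro g
    choose e he using fun i => hπ i g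
    exact ⟨⟨(g, e), he⟩, rfl⟩
  · intro q hq σ τ hστ ℓ hℓ hℓq ⟨k, hk⟩
    by_contra hne
    set x : G := ((MonoidHom.fst G _).comp T.subtype) τ with hx
    have hxk : x ^ (ℓ ^ k) = 1 := by
      rw [hx, ← map_pow, hk, map_one]
    obtain ⟨j, hj, hj2⟩ := (Nat.dvd_prime_pow hℓ).1 (orderOf_dvd_of_pow_eq_one hxk)
    have hj0 : j ≠ 0 := by
      rintro rfl
      apply hne
      simpa using hj2
    obtain ⟨i, rfl⟩ := Nat.exists_eq_succ_of_ne_zero hj0
    set g : G := x ^ (ℓ ^ i) with hg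
    have hgℓ : g ^ ℓ = 1 := by
      rw [hg, ← pow_mul, ← pow_succ]
      rw [← orderOf_dvd_iff_pow_eq_one, hj2]
    have hg1 : g ≠ 1 := by
      rw [hg]
      intro h1
      rw [← orderOf_dvd_iff_pow_eq_one, hj2] at h1
      have := (Nat.pow_dvd_pow_iff_le_right hℓ.one_lt).1 h1
      omega
    let ev : T →* E (⟨q, hq⟩, g) := (Pi.evalMonoidHom E (⟨q, hq⟩, g)).comp
      ((MonoidHom.snd G _).comp T.subtype)
    have h1 : (ev σ) * (ev (τ ^ (ℓ ^ i))) * (ev σ)⁻¹ = (ev (τ ^ (ℓ ^ i))) ^ q := by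
      rw [← map_inv, ← map_mul, ← map_mul, ← map_pow]
      congr 1
      rw [← conj_pow, hστ, ← pow_mul, ← pow_mul, mul_comm]
    apply hkill (⟨q, hq⟩, g) _ _ h1 ℓ hℓ hℓq hgℓ hg1
    have h2 : π (⟨q, hq⟩, g) (ev (τ ^ (ℓ ^ i))) =
        ((MonoidHom.fst G _).comp T.subtype) (τ ^ (ℓ ^ i)) := (τ ^ (ℓ ^ i)).2 (⟨q, hq⟩, g)
    rw [h2, map_pow, ← hx]

end Pool.Agent.Helper32IGP
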