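import Pool.Agent.Helper32_IGP.Tame

/-!
# Local conditions for quotients killing all tame pairs
-/

namespace Pool.Agent.Helper32IGP

open NumberField
open scoped Pointwise

/-- `ρ` kills all tame pairs with exponent `q` -/
def Kills {H G : Type*} [Group H] [Group G] (ρ : H →* G) (q : ℕ) : Prop :=
  ∀ σ τ : H, σ * τ * σ⁻¹ = τ ^ q → ∀ ℓ : ℕ, ℓ.Prime → ¬ ℓ ∣ q → (∃ k, τ ^ (ℓ ^ k) = 1) → ρ τ = 1

section

variable {K F : Type} [Field K] [Field F] [NumberField K] [NumberField F] [Algebra K F]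
  [IsGalois K F]

theorem card_residue (v : Ideal (𝓞 K)) [v.IsPrime] (hv : v ≠ ⊥) {p : ℕ} (hp : p.Prime)
    (hpv : (p : 𝓞 K) ∈ v) : ∃ f : ℕ, f ≠ 0 ∧ Nat.card (𝓞 K ⧸ v) = p ^ f := by
  have : v.IsMaximal := Ideal.IsPrime.isMaximal inferInstance hv
  have : Finite (𝓞 K ⧸ v) := Ideal.finiteQuotientOfFreeOfNeBot v hv
  let : Fintype (𝓞 K ⧸ v) := Fintype.ofFinite _
  let : Field (𝓞 K ⧸ v) := Ideal.Quotient.field v
  obtain ⟨c, hc⟩ := CharP.exists (𝓞 K ⧸ v)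
  obtain ⟨n, hcp, hn⟩ := FiniteField.card (𝓞 K ⧸ v) c
  have hcp2 : c = p := by
    have h1 : ((p : ℕ) : 𝓞 K ⧸ v) = 0 := by
      have : (Ideal.Quotient.mk v) (p : 𝓞 K) = 0 := Ideal.Quotient.eq_zero_iff_mem.2 hpv
      simpa using this
    have h2 := (CharP.cast_eq_zero_iff (𝓞 K ⧸ v) c p).1 h1
    exact (Nat.prime_dvd_prime_iff_eq hcp hp).1 h2
  refine ⟨n, n.2.ne', ?_⟩
  rw [Nat.card_eq_fintype_card, hn, hcp2]

theorem local_finite {G : Type} [Group G] (ρ : Gal(F/K) →* G)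
    (v : Ideal (𝓞 K)) [v.IsPrime] (hv : v ≠ ⊥) {p : ℕ} (hp : p.Prime)
    (hpv : (p : 𝓞 K) ∈ v) (hkill : Kills ρ (Nat.card (𝓞 K ⧸ v)))
    (P : Ideal (𝓞 F)) [P.IsPrime] [hPv : P.LiesOver v] (t : Gal(F/K)) (ht : ∀ x : 𝓞 F, t • x - x ∈ P) :
    ∃ k, orderOf (ρ t) = p ^ k := by
  obtain ⟨f, hf, hq⟩ := card_residue v hv hp hpv
  set q := Nat.card (𝓞 K ⧸ v) with hqdef
  have hP0 : P ≠ ⊥ := Ideal.ne_bot_of_liesOver_of_ne_bot hv P
  have : P.IsMaximal := Ideal.IsPrime.isMaximal inferInstance hP0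
  have : Finite (𝓞 F ⧸ P) := Ideal.finiteQuotientOfFreeOfNeBot P hP0
  have hpP : (p : 𝓞 F) ∈ P := by
    have h1 : v = P.under (𝓞 K) := hPv.over
    rw [h1, Ideal.under_def, Ideal.mem_comap] at hpv
    simpa using hpv
  have hfin : Finite Gal(F/K) := inferInstance
  have hft : orderOf (ρ t) ≠ 0 := by
    have : (ρ t) ^ (orderOf t) = 1 := by rw [← map_pow, pow_orderOf_eq_one, map_one]
    have h2 := orderOf_dvd_of_pow_eq_one this
    intro h0
    rw [h0, zero_dvd_iff] at h2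
    exact (orderOf_pos t).ne' h2
  refine ⟨_, Nat.eq_prime_pow_of_unique_prime_dvd hft ?_⟩
  intro ℓ hℓ hdvd
  by_contra hne
  -- the `ℓ`-part of `t`
  have hn0 : orderOf t ≠ 0 := (orderOf_pos t).ne'
  obtain ⟨j, m, hm, hjm⟩ := Nat.exists_eq_pow_mul_and_not_dvd hn0 ℓ hℓ.ne_one
  set τ := t ^ m with hτ
  have hτ1 : τ ^ (ℓ ^ j) = 1 := by
    rw [hτ, ← pow_mul, mul_comm, ← hjm, pow_orderOf_eq_one]
  have hℓP : (ℓ : 𝓞 F) ∉ P := by
    intro h
    have hco : IsCoprime (ℓ : ℤ) (p : ℤ) := by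
      rw [Nat.isCoprime_iff_coprime]
      exact (Nat.coprime_primes hℓ hp).2 hne
    obtain ⟨a, b, hab⟩ := hco
    have h1 : (1 : 𝓞 F) = (a : 𝓞 F) * (ℓ : 𝓞 F) + (b : 𝓞 F) * (p : 𝓞 F) := by
      have := congrArg (Int.cast : ℤ → 𝓞 F) hab
      push_cast at this
      exact this.symm
    apply (inferInstance : P.IsPrime).ne_top
    rw [Ideal.eq_top_iff_one, h1]
    exact P.add_mem (P.mul_mem_left _ h) (P.mul_mem_left _ hpP)
  obtain ⟨φ, hφ⟩ := IsArithFrobAt.exists_of_isInvariant (𝓞 K) Gal(F/K) P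
  have hφ' : ∀ x : 𝓞 F, φ • x - x ^ q ∈ P := by
    intro x
    have := hφ x
    rw [← hPv.over] at this
    exact this
  obtain ⟨π, hπ, hπ2⟩ : ∃ π ∈ P, π ∉ P ^ 2 := by
    have h1 : P ^ (1 + 1) < P ^ 1 := Ideal.pow_succ_lt_pow hP0 1
    obtain ⟨π, h2, h3⟩ := SetLike.exists_of_lt h1
    exact ⟨π, by simpa using h2, h3⟩
  have hgen : ∀ y ∈ P, ∃ a, y - a * π ∈ P ^ 2 := by
    intro y hy
    obtain ⟨d, e, he, hde⟩ := Ideal.exists_mul_add_mem_pow_succ hP0 (i := 1) π y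
      (by simpa using hπ) hπ2 (by simpa using hy)
    refine ⟨d, ?_⟩
    have : y - d * π = e := by rw [← hde]; ring
    rw [this]; exact he
  have hτI : ∀ x : 𝓞 F, τ • x - x ∈ P := inertia_pow ht m
  have : FaithfulSMul Gal(F/K) (𝓞 F) :=
    (inferInstance : IsGaloisGroup Gal(F/K) (𝓞 K) (𝓞 F)).faithful
  obtain ⟨σ, hσ⟩ := tame (B := 𝓞 F) (H := Gal(F/K)) hπ hgen (q := q)
    (by rw [hq]; exact pow_ne_zero _ hp.ne_zero) hφ' hℓ hℓP hτI hτ1
  have hℓq : ¬ ℓ ∣ q := by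
    rw [hq]
    intro h
    exact hne ((Nat.prime_dvd_prime_iff_eq hℓ hp).1 (hℓ.dvd_of_dvd_pow h))
  have h1 : ρ τ = 1 := hkill σ τ hσ ℓ hℓ hℓq ⟨j, hτ1⟩
  rw [hτ, map_pow, ← orderOf_dvd_iff_pow_eq_one] at h1
  exact hm (hdvd.trans h1)

theorem ram_pow {G : Type} [Group G] [Finite G] (ρ : Gal(F/K) →* G)
    (v : Ideal (𝓞 K)) [v.IsPrime] (hv : v ≠ ⊥) {p : ℕ} (hp : p.Prime)
    (hpv : (p : 𝓞 K) ∈ v) (hkill : Kills ρ (Nat.card (𝓞 K ⧸ v)))
    (L : IntermediateField K F) [NumberField L] [IsGaloisGroup ρ.ker L F]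
    (P : Ideal (𝓞 L)) [P.IsPrime] [P.LiesOver v] :
    ∃ k, P.ramificationIdx (𝓞 K) = p ^ k := by
  obtain ⟨⟨Q, hQ1, hQ2⟩⟩ : Nonempty (P.primesOver (𝓞 F)) := inferInstance
  have := hQ1
  have := hQ2
  have : Q.LiesOver v := Ideal.LiesOver.trans Q P v
  have : v.IsMaximal := Ideal.IsPrime.isMaximal inferInstance hv
  have hP0 : P ≠ ⊥ := Ideal.ne_bot_of_liesOver_of_ne_bot hv P
  have : P.IsMaximal := Ideal.IsPrime.isMaximal inferInstance hP0
  have : Finite (𝓞 K ⧸ v) := Ideal.finiteQuotientOfFreeOfNeBot v hv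
  have : Finite (𝓞 L ⧸ P) := Ideal.finiteQuotientOfFreeOfNeBot P hP0
  have h1 : Nat.card (Q.inertia Gal(F/K)) = Q.ramificationIdx (𝓞 K) := by
    rw [Ideal.card_inertia_eq_ramificationIdxIn v Q,
      Ideal.ramificationIdxIn_eq_ramificationIdx v Q Gal(F/K)]
  have hGal : IsGaloisGroup ρ.ker (𝓞 L) (𝓞 F) := IsGaloisGroup.of_isFractionRing ρ.ker (𝓞 L) (𝓞 F) L F
  have h2 : Nat.card (Q.inertia ρ.ker) = Q.ramificationIdx (𝓞 L) := by
    rw [Ideal.card_inertia_eq_ramificationIdxIn P Q,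
      Ideal.ramificationIdxIn_eq_ramificationIdx P Q ρ.ker]
  have h3 := Ideal.ramificationIdx_tower (R := 𝓞 K) P Q
  set I : Subgroup Gal(F/K) := Q.inertia Gal(F/K) with hI
  let ψ : I →* G := ρ.comp I.subtype
  have h4 : Nat.card I = Nat.card ψ.range * Nat.card ψ.ker := by
    rw [Subgroup.card_eq_card_quotient_mul_card_subgroup ψ.ker,
      Nat.card_congr (QuotientGroup.quotientKerEquivRange ψ).toEquiv]
  have h5 : Nat.card ψ.ker = Nat.card (Q.inertia ρ.ker) := by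
    refine Nat.card_congr
      { toFun := fun x => ⟨⟨x.1.1, x.2⟩, x.1.2⟩
        invFun := fun y => ⟨⟨y.1.1, y.2⟩, y.1.2⟩
        left_inv := fun x => rfl
        right_inv := fun y => rfl }
  have h6 : Q.ramificationIdx (𝓞 L) ≠ 0 := by
    rw [← h2]; exact Nat.card_pos.ne'
  have h7 : P.ramificationIdx (𝓞 K) = Nat.card ψ.range := by
    rw [h4, h5, h2] at h1
    rw [← h1] at h3
    exact (Nat.eq_of_mul_eq_mul_right (Nat.pos_of_ne_zero h6) h3).symm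
  have : Fact p.Prime := ⟨hp⟩
  have hpg : IsPGroup p ψ.range := by
    rw [IsPGroup.iff_orderOf]
    rintro ⟨x, t, rfl⟩
    obtain ⟨k, hk⟩ := local_finite ρ v hv hp hpv hkill Q t.1 t.2
    refine ⟨k, ?_⟩
    rw [← hk]
    exact orderOf_injective ψ.range.subtype (Subtype.val_injective) ⟨ψ t, _⟩ |>.symm
  rw [h7]
  exact IsPGroup.iff_card.1 hpg

theorem local_infinite {G : Type} [Group G] (ρ : Gal(F/K) →* G) (hkill : Kills ρ 3)
    (L : IntermediateField K F) [IsGalois K L]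
    (hL : ∀ σ : Gal(F/K), ρ σ = 1 → ∀ x : L, σ x = x) :
    IsUnramifiedAtInfinitePlaces K L := by
  constructor
  intro w
  rw [← InfinitePlace.mk_embedding w, InfinitePlace.isUnramified_mk_iff_forall_isConj]
  intro σ hσ
  set φ := w.embedding
  -- extend `φ` to `F`
  let : Algebra L ℂ := φ.toAlgebra
  let φ'' : F →ₐ[L] ℂ := IsAlgClosed.lift
  let φ' : F →+* ℂ := φ''.toRingHom
  have hφ' : ∀ x : L, φ' x = φ x := fun x => φ''.commutes x
  have hreal : ∀ x : L, starRingEnd ℂ (φ x) = φ (σ x) := by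
    intro x
    have := ComplexEmbedding.IsConj.eq hσ x
    exact this.symm
  have hK : φ'.comp (algebraMap K F) = (ComplexEmbedding.conjugate φ').comp (algebraMap K F) := by
    ext x
    have h1 : algebraMap K F x = ((algebraMap K L x : L) : F) := rfl
    rw [RingHom.comp_apply, RingHom.comp_apply, ComplexEmbedding.conjugate_coe_eq, h1, hφ', hreal,
      AlgEquiv.commutes]
  obtain ⟨τ₀, hτ₀⟩ := ComplexEmbedding.exists_comp_symm_eq_of_comp_eq _ _ hK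
  set τ := τ₀.symm
  have hτ : ∀ x : F, φ' (τ x) = starRingEnd ℂ (φ' x) := by
    intro x
    have := congrArg (fun f : F →+* ℂ => f x) hτ₀
    simpa [ComplexEmbedding.conjugate_coe_eq] using this
  have hinj : Function.Injective φ' := φ'.injective
  have hτ2 : τ ^ 2 = 1 := by
    ext x
    apply hinj
    rw [pow_two, AlgEquiv.mul_apply, hτ, hτ]
    simp
  have h1 : ρ τ = 1 := by
    apply hkill 1 τ ?_ 2 Nat.prime_two (by decide) ⟨1, by simpa using hτ2⟩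
    rw [one_mul, inv_one, mul_one, pow_succ, hτ2, one_mul]
  apply AlgEquiv.ext
  intro x
  have h2 : φ (σ x) = φ x := by
    rw [← hreal, ← hφ', ← hτ, hL τ h1 x]
  have h3 : σ x = x := φ.injective h2
  rw [h3]
  rfl

end

end Pool.Agent.Helper32IGP
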