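import Mathlib

/-!
# The tame relation

Let a finite group `H` act faithfully on a Noetherian domain `B` with a maximal ideal `P` such that
`P / P ^ 2` is generated by one element.  If `t` lies in the inertia group of `P`, has order a power
of a prime `ℓ ∉ P`, and `φ ∈ H` satisfies `φ x ≡ x ^ q (mod P)` for all `x`, then there is `σ ∈ H`
with `σ t σ⁻¹ = t ^ q`.
-/

namespace Pool.Agent.Helper32IGP

open scoped Pointwise

section Tame

variable {B H : Type*} [CommRing B] [Group H] [MulSemiringAction H B]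
variable {P : Ideal B}

theorem smul_mem_pow {z : H} (hz : ∀ x : B, z • x - x ∈ P) (n : ℕ) {y : B} (hy : y ∈ P ^ n) :
    z • y ∈ P ^ n := by
  let f : B →+* B := MulSemiringAction.toRingHom H B z
  have h1 : P ≤ P.comap f := by
    intro x hx
    rw [Ideal.mem_comap]
    change z • x ∈ P
    have := P.add_mem (hz x) hx
    simpa using this
  have h2 : P ^ n ≤ (P ^ n).comap f := (Ideal.pow_right_mono h1 n).trans (Ideal.le_comap_pow f n)
  exact h2 hy

theorem sub_mem_succ {z : H} (hz : ∀ x : B, z • x - x ∈ P) (hz2 : ∀ y ∈ P, z • y - y ∈ P ^ 2)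
    (n : ℕ) {y : B} (hy : y ∈ P ^ n) : z • y - y ∈ P ^ (n + 1) := by
  induction n generalizing y with
  | zero => simpa using hz y
  | succ n ih =>
    rw [pow_succ] at hy
    refine Submodule.mul_induction_on hy ?_ ?_
    · intro a ha b hb
      have h1 : z • (a * b) - a * b = (z • a - a) * (z • b) + a * (z • b - b) := by
        rw [smul_mul']; ring
      rw [h1]
      apply Ideal.add_mem
      · have hb' : z • b ∈ P := by simpa using smul_mem_pow hz 1 (by simpa using hb)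
        rw [pow_succ]
        exact Ideal.mul_mem_mul (ih ha) hb'
      · have : P ^ (n + 1 + 1) = P ^ n * P ^ 2 := by rw [← pow_add]
        rw [this]
        exact Ideal.mul_mem_mul ha (hz2 b hb)
    · intro x y hx hy
      have h1 : z • (x + y) - (x + y) = (z • x - x) + (z • y - y) := by
        rw [smul_add]; ring
      rw [h1]
      exact Ideal.add_mem _ hx hy

theorem mem_pow_of_mul_mem [P.IsMaximal] {a b : B} (ha : a ∉ P) {n : ℕ} (h : a * b ∈ P ^ n) :
    b ∈ P ^ n := by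
  have h1 : Ideal.span {a} ⊔ P = ⊤ := by
    have := (inferInstance : P.IsMaximal)
    apply (Ideal.isMaximal_def.1 this).2
    refine lt_of_le_of_ne le_sup_right ?_
    intro h
    apply ha
    rw [h]
    exact Ideal.mem_sup_left (Ideal.mem_span_singleton_self a)
  have h2 : Ideal.span {a} ⊔ P ^ n = ⊤ := Ideal.sup_pow_eq_top h1
  have h3 : (1 : B) ∈ Ideal.span {a} ⊔ P ^ n := by rw [h2]; trivial
  obtain ⟨u, hu, v, hv, huv⟩ := Submodule.mem_sup.1 h3
  obtain ⟨c, rfl⟩ := Ideal.mem_span_singleton'.1 hu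
  have : b = c * (a * b) + v * b := by
    calc b = 1 * b := (one_mul b).symm
      _ = (c * a + v) * b := by rw [huv]
      _ = _ := by ring
  rw [this]
  exact Ideal.add_mem _ (Ideal.mul_mem_left _ _ h) (Ideal.mul_mem_right _ _ hv)

/-- an element acting trivially on `B / P` and `P / P ^ 2` of order prime to `P` is trivial -/
theorem eq_one_of_unipotent [IsDomain B] [IsNoetherianRing B] [FaithfulSMul H B] [P.IsMaximal]
    {z : H} (hz : ∀ x : B, z • x - x ∈ P) (hz2 : ∀ y ∈ P, z • y - y ∈ P ^ 2)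
    {n : ℕ} (hn : z ^ n = 1) (hnP : (n : B) ∉ P) : z = 1 := by
  have key : ∀ N : ℕ, ∀ x : B, z • x - x ∈ P ^ (N + 1) := by
    intro N
    induction N with
    | zero => simpa using hz
    | succ N ih =>
      intro x
      set δ := z • x - x with hδ
      have hδ2 : z • δ - δ ∈ P ^ (N + 1 + 1) := sub_mem_succ hz hz2 _ (ih x)
      have hk : ∀ k : ℕ, z ^ k • x - (x + k * δ) ∈ P ^ (N + 1 + 1) := by
        intro k
        induction k with
        | zero => simp
        | succ k ihk =>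
          have h1 := smul_mem_pow hz _ ihk
          have h2 : z ^ (k + 1) • x - (x + ((k + 1 : ℕ) : B) * δ) =
              z • (z ^ k • x - (x + k * δ)) + (k : B) * (z • δ - δ) := by
            rw [pow_succ', mul_smul, smul_sub, smul_add, smul_mul']
            have h3 : z • ((k : B)) = (k : B) :=
              map_natCast (MulSemiringAction.toRingHom H B z) k
            rw [h3, hδ]
            push_cast
            ring
          rw [h2]
          exact Ideal.add_mem _ h1 (Ideal.mul_mem_left _ _ hδ2)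
      have h4 := hk n
      rw [hn, one_smul] at h4
      have h5 : (n : B) * δ ∈ P ^ (N + 1 + 1) := by
        have h6 := Ideal.neg_mem_iff _ |>.2 h4
        have h7 : -(x - (x + (n : B) * δ)) = (n : B) * δ := by ring
        rwa [h7] at h6
      exact mem_pow_of_mul_mem hnP h5
  have h8 : ∀ x : B, z • x = x := by
    intro x
    have h9 : z • x - x ∈ (⨅ i : ℕ, P ^ i : Ideal B) := by
      rw [Ideal.mem_iInf]
      intro i
      exact Ideal.pow_le_pow_right (Nat.le_succ i) (key i x)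
    rw [Ideal.iInf_pow_eq_bot_of_isDomain P (Ideal.IsPrime.ne_top'), Ideal.mem_bot, sub_eq_zero] at h9
    exact h9
  exact FaithfulSMul.eq_of_smul_eq_smul (M := H) (α := B) (fun x => by rw [h8 x, one_smul])

/-- `w` acts on `P / P ^ 2` as multiplication by `u` -/
def Act (P : Ideal B) (w : H) (u : B) : Prop := ∀ y ∈ P, w • y - u * y ∈ P ^ 2

theorem Act.mul {w w' : H} {u u' : B} (hw : ∀ x : B, w • x - x ∈ P)
    (h : Act P w u) (h' : Act P w' u') : Act P (w * w') (u * u') := by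
  intro y hy
  have h1 : (w * w') • y - u * u' * y =
      w • (w' • y - u' * y) + ((w • u' - u') * (w • y) + u' * (w • y - u * y)) := by
    rw [mul_smul, smul_sub, smul_mul']; ring
  rw [h1]
  refine Ideal.add_mem _ (smul_mem_pow hw 2 (h' y hy)) (Ideal.add_mem _ ?_ ?_)
  · rw [pow_two]
    exact Ideal.mul_mem_mul (hw u') (by simpa using smul_mem_pow hw 1 (by simpa using hy))
  · exact Ideal.mul_mem_left _ _ (h y hy)

theorem inertia_pow {w : H} (hw : ∀ x : B, w • x - x ∈ P) (k : ℕ) :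
    ∀ x : B, (w ^ k) • x - x ∈ P := by
  intro x
  induction k with
  | zero => simp
  | succ k ih =>
    have h1 : (w ^ (k + 1)) • x - x = (w • (w ^ k • x) - w ^ k • x) + (w ^ k • x - x) := by
      rw [pow_succ', mul_smul]; ring
    rw [h1]
    exact Ideal.add_mem _ (hw _) ih

theorem Act.pow {w : H} {u : B} (hw : ∀ x : B, w • x - x ∈ P) (h : Act P w u) (k : ℕ) :
    Act P (w ^ k) (u ^ k) := by
  induction k with
  | zero => intro y _; simp
  | succ k ih => rw [pow_succ', pow_succ']; exact Act.mul hw h ih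

theorem exists_act {π : B} (hπ : π ∈ P) (hgen : ∀ y ∈ P, ∃ a, y - a * π ∈ P ^ 2)
    {w : H} (hw : ∀ x : B, w • x - x ∈ P) : ∃ u, Act P w u := by
  have hwπ : w • π ∈ P := by simpa using smul_mem_pow hw 1 (by simpa using hπ)
  obtain ⟨u, hu⟩ := hgen (w • π) hwπ
  refine ⟨u, ?_⟩
  intro y hy
  obtain ⟨a, ha⟩ := hgen y hy
  have h1 : w • y - u * y = w • (y - a * π) + ((w • a - a) * (w • π) + a * (w • π - u * π)
      - u * (y - a * π)) := by
    rw [smul_sub, smul_mul']; ring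
  rw [h1]
  refine Ideal.add_mem _ (smul_mem_pow hw 2 ha) (Ideal.sub_mem _ (Ideal.add_mem _ ?_ ?_) ?_)
  · rw [pow_two]; exact Ideal.mul_mem_mul (hw a) hwπ
  · exact Ideal.mul_mem_left _ _ hu
  · exact Ideal.mul_mem_left _ _ ha

/-- the relation `σ t σ⁻¹ = t ^ q` for `t` in a subgroup `T` of the inertia group normalized
by `σ`, all of whose elements have order prime to `P` -/
theorem tame_aux [IsDomain B] [IsNoetherianRing B] [FaithfulSMul H B] [P.IsMaximal]
    {π : B} (hπ : π ∈ P) (hgen : ∀ y ∈ P, ∃ a, y - a * π ∈ P ^ 2)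
    (T : Subgroup H) (hT : ∀ w ∈ T, ∀ x : B, w • x - x ∈ P)
    (hTn : ∀ w ∈ T, ∃ n : ℕ, w ^ n = 1 ∧ (n : B) ∉ P)
    {σ : H} {q : ℕ} (hσ : ∀ x : B, σ • x - x ^ q ∈ P) (hσT : ∀ w ∈ T, σ * w * σ⁻¹ ∈ T)
    (hσP : σ • P = P)
    {t : H} (ht : t ∈ T) : σ * t * σ⁻¹ = t ^ q := by
  obtain ⟨u, hu⟩ := exists_act hπ hgen (hT t ht)
  have hσP' : σ⁻¹ • P = P := by rw [inv_smul_eq_iff, hσP]
  have hmem : ∀ y ∈ P, σ • y ∈ P := by
    intro y hy
    rw [← hσP]
    exact Ideal.smul_mem_pointwise_smul_iff.2 hy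
  have hmem' : ∀ y ∈ P, σ⁻¹ • y ∈ P := by
    intro y hy
    rw [← hσP']
    exact Ideal.smul_mem_pointwise_smul_iff.2 hy
  have hmem2 : ∀ y ∈ P ^ 2, σ • y ∈ P ^ 2 := by
    intro y hy
    let f : B →+* B := MulSemiringAction.toRingHom H B σ
    have h1 : P ≤ P.comap f := fun x hx => hmem x hx
    have h2 : P ^ 2 ≤ (P ^ 2).comap f :=
      (Ideal.pow_right_mono h1 2).trans (Ideal.le_comap_pow f 2)
    exact h2 hy
  have h1 : Act P (σ * t * σ⁻¹) (u ^ q) := by
    intro y hy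
    have h2 : (σ * t * σ⁻¹) • y - u ^ q * y =
        σ • (t • (σ⁻¹ • y) - u * (σ⁻¹ • y)) + (σ • u - u ^ q) * y := by
      rw [smul_sub, smul_mul', smul_inv_smul, mul_smul, mul_smul]; ring
    rw [h2]
    refine Ideal.add_mem _ (hmem2 _ (hu _ (hmem' y hy))) ?_
    rw [pow_two]
    exact Ideal.mul_mem_mul (hσ u) hy
  have h2 : Act P (t ^ q) (u ^ q) := hu.pow (hT t ht) q
  -- `z = σ t σ⁻¹ (t ^ q)⁻¹`
  have hz : (σ * t * σ⁻¹) * (t ^ q)⁻¹ ∈ T :=
    T.mul_mem (hσT t ht) (T.inv_mem (T.pow_mem ht q))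
  obtain ⟨n, hn1, hn2⟩ := hTn _ hz
  have hz2 : ∀ y ∈ P, ((σ * t * σ⁻¹) * (t ^ q)⁻¹) • y - y ∈ P ^ 2 := by
    intro y hy
    have hti : (t ^ q)⁻¹ ∈ T := T.inv_mem (T.pow_mem ht q)
    set y1 := (t ^ q)⁻¹ • y with hy1
    have hy1P : y1 ∈ P := by simpa using smul_mem_pow (hT _ hti) 1 (by simpa using hy)
    have hyy : y = (t ^ q) • y1 := by rw [hy1, smul_inv_smul]
    have h3 : ((σ * t * σ⁻¹) * (t ^ q)⁻¹) • y - y =
        ((σ * t * σ⁻¹) • y1 - u ^ q * y1) - ((t ^ q) • y1 - u ^ q * y1) := by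
      rw [mul_smul, ← hy1, ← hyy]; ring
    rw [h3]
    exact Ideal.sub_mem _ (h1 y1 hy1P) (h2 y1 hy1P)
  have := eq_one_of_unipotent (hT _ hz) hz2 hn1 hn2
  rwa [mul_inv_eq_one] at this

/-- **The tame relation.** -/
theorem tame [IsDomain B] [IsNoetherianRing B] [FaithfulSMul H B] [Finite H] [P.IsMaximal]
    {π : B} (hπ : π ∈ P) (hgen : ∀ y ∈ P, ∃ a, y - a * π ∈ P ^ 2)
    {φ : H} {q : ℕ} (hq : q ≠ 0) (hφ : ∀ x : B, φ • x - x ^ q ∈ P)
    {ℓ : ℕ} (hℓ : ℓ.Prime) (hℓP : (ℓ : B) ∉ P)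
    {t : H} (ht : ∀ x : B, t • x - x ∈ P) {k : ℕ} (htk : t ^ (ℓ ^ k) = 1) :
    ∃ σ : H, σ * t * σ⁻¹ = t ^ q := by
  haveI : Fact ℓ.Prime := ⟨hℓ⟩
  let D : Subgroup H := MulAction.stabilizer H P
  let N : Subgroup D := P.toAddSubgroup.inertia D
  have htI : t ∈ P.toAddSubgroup.inertia H := ht
  have htD : t ∈ D := Ideal.inertia_le_stabilizer P htI
  -- `φ` stabilizes `P`
  have hφle : φ • P ≤ P := by
    intro x hx
    rw [Ideal.mem_pointwise_smul_iff_inv_smul_mem] at hx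
    have h1 := hφ (φ⁻¹ • x)
    rw [smul_inv_smul] at h1
    have h2 : (φ⁻¹ • x) ^ q ∈ P := P.pow_mem_of_mem hx q (Nat.pos_of_ne_zero hq)
    have := P.add_mem h1 h2
    simpa using this
  have hφD : φ ∈ D := by
    rw [MulAction.mem_stabilizer_iff]
    -- a finite order argument
    have hpow : ∀ n : ℕ, φ ^ (n + 1) • P ≤ φ • P := by
      intro n
      induction n with
      | zero => simp
      | succ n ih =>
        rw [pow_succ', mul_smul]
        have : φ ^ (n + 1) • P ≤ P := ih.trans hφle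
        exact Ideal.pointwise_smul_le_pointwise_smul_iff.2 this
    apply le_antisymm hφle
    obtain ⟨m, hm⟩ := Nat.exists_eq_succ_of_ne_zero (orderOf_pos φ).ne'
    have := hpow m
    rwa [← Nat.succ_eq_add_one, ← hm, pow_orderOf_eq_one, one_smul] at this
  let t' : N := ⟨⟨t, htD⟩, ht⟩
  have ht'k : t' ^ (ℓ ^ k) = 1 := by
    apply Subtype.ext; apply Subtype.ext
    exact htk
  have hpg : IsPGroup ℓ (Subgroup.zpowers t') := by
    rw [IsPGroup.iff_orderOf]
    rintro ⟨x, hx⟩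
    obtain ⟨j, rfl⟩ := Subgroup.mem_zpowers_iff.1 hx
    have : (t' ^ j) ^ (ℓ ^ k) = 1 := by
      rw [← zpow_natCast, ← zpow_mul, mul_comm, zpow_mul, zpow_natCast, ht'k, one_zpow]
    have h2 : orderOf (⟨t' ^ j, hx⟩ : Subgroup.zpowers t') ∣ ℓ ^ k := by
      rw [orderOf_dvd_iff_pow_eq_one]
      apply Subtype.ext
      exact this
    obtain ⟨i, _, hi⟩ := (Nat.dvd_prime_pow hℓ).1 h2
    exact ⟨i, hi⟩
  obtain ⟨T, hT⟩ := hpg.exists_le_sylow
  have hfr := Sylow.normalizer_sup_eq_top T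
  have hmem : (⟨φ, hφD⟩ : D) ∈ Subgroup.normalizer ((T : Subgroup N).map N.subtype : Set D) ⊔ N := by
    rw [hfr]; trivial
  obtain ⟨a, ha, b, hb, hab⟩ := (Subgroup.mem_sup_of_normal_right).1 hmem
  -- `a` acts as Frobenius
  have ha1 : a = (⟨φ, hφD⟩ : D) * b⁻¹ := by rw [← hab]; group
  have haF : ∀ x : B, a • x - x ^ q ∈ P := by
    intro x
    rw [ha1, mul_smul]
    have hbi : b⁻¹ ∈ N := N.inv_mem hb
    have h1 : (b⁻¹ • x - x) ∈ P := hbi x
    have h2 : φ • (b⁻¹ • x - x) ∈ P := by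
      have : φ • (b⁻¹ • x - x) ∈ φ • P := Ideal.smul_mem_pointwise_smul_iff.2 h1
      exact hφle this
    have h3 : (⟨φ, hφD⟩ : D) • (b⁻¹ • x) - x ^ q = φ • (b⁻¹ • x - x) + (φ • x - x ^ q) := by
      rw [smul_sub]
      change φ • (b⁻¹ • x) - x ^ q = _
      ring
    rw [h3]
    exact P.add_mem h2 (hφ x)
  -- apply `tame_aux` to the stabilizer
  have key : a * (⟨t, htD⟩ : D) * a⁻¹ = (⟨t, htD⟩ : D) ^ q := by
    apply tame_aux (B := B) (H := D) hπ hgen ((T : Subgroup N).map N.subtype)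
    · rintro w ⟨w', _, rfl⟩ x
      exact w'.2 x
    · rintro w ⟨w', hw', rfl⟩
      obtain ⟨j, hj⟩ := (IsPGroup.iff_orderOf.1 T.isPGroup') ⟨w', hw'⟩
      refine ⟨ℓ ^ j, ?_, ?_⟩
      · have h1 : (⟨w', hw'⟩ : T) ^ (ℓ ^ j) = 1 := by rw [← hj, pow_orderOf_eq_one]
        have h2 : w' ^ (ℓ ^ j) = 1 := congrArg Subtype.val h1
        rw [← map_pow, h2, map_one]
      · push_cast
        intro h
        exact hℓP (Ideal.IsPrime.mem_of_pow_mem inferInstance _ h)
    · exact haF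
    · intro w hw
      have := (Subgroup.mem_normalizer_iff.1 ha w).1 hw
      exact this
    · exact a.2
    · exact ⟨t', hT (Subgroup.mem_zpowers t'), rfl⟩
  refine ⟨a, ?_⟩
  exact congrArg Subtype.val key

end Tame

end Pool.Agent.Helper32IGP
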